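import Pool.Agent.Q60.PL.Tot

/-!
# MP_d037d4_ag: monodromy, weights and Hodge numbers for the powers of a variety

Let `Y` be a smooth projective variety over a `p`-adic field whose residue field has `q` elements, with
monodromy operator `N ≠ 0` on the Hyodo-Kato cohomology. Let `b` be the sum of the Betti numbers,
`A = 2 ∑ k rank (N ^ k)`, `B = ∑ (w - m)²` (over the Frobenius eigenvalues of weight `w` on the
`H^m_HK(Y)`) and `h = ∑ (a - c)² h^(a, c)` (over the Hodge numbers).

* The number of Jordan blocks of size greater than `t √n` of the monodromy operator of `Y^n` is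
  asymptotic to `b^n √(2 b / (π A n)) exp (- t² b / (2 A))`.
* The numbers `(w - m) / √n` for `Y^n` are asymptotically normally distributed with variance `B / b`.
* `A ≤ B`, and `A = B` if and only if the `p`-adic weight-monodromy conjecture holds for `Y`.
* If the characteristic polynomials of the Frobenius have rational coefficients, `B ≤ h`; then the
  proportion of the Jordan blocks with size greater than `t √n` is asymptotically at most
  `exp (- t² b / (2 h))`, and the proportion of the Frobenius eigenvalues with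
  `|w - m| ≤ t √n` is asymptotically at least `P (|Z| ≤ t √(b / h))`: bounds by the Hodge numbers.
-/

set_option autoImplicit false

open Module Filter Topology

universe u v w

namespace Pool.Agent.Results.MP_d037d4_ag.BlocksAndHodge

open Pool.Agent.H914 Pool.Agent.Y143 Pool.Agent.Y163.MW Pool.Agent.Y163.MX Pool.Agent.Q60.PL

/-- **Monodromy, weights and Hodge numbers on powers.** -/
theorem result {K : Type u} [Field K] {Ω : Type w} [Field Ω] [CharZero Ω] [IsAlgClosed Ω]
    {T : PTheory.{u, v, w} K Ω} {q : ℕ} (hq : 1 < q) (hT : IsPadic T q) (Y : SmVar.{u} K)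
    (hN : (T.H Y).N ≠ 0) (b A B h : ℝ) (hb : b = finrank Ω (T.H Y).V)
    (hA : A = (T.H Y).totRankMoment) (hB : B = (T.H Y).totWeightMoment q)
    (hh : h = totHodge T Y) :
    (∀ t : ℝ, 0 ≤ t → Tendsto (fun n : ℕ => √((n + 1 : ℕ) : ℝ) *
      ((numBlocks (T.H (pow Y n)).N ⌊t * √((n + 1 : ℕ) : ℝ)⌋₊ : ℝ) / b ^ (n + 1))) atTop
      (𝓝 (√(2 * b / (Real.pi * A)) * Real.exp (-(t ^ 2 * b / (2 * A)))))) ∧
    (∀ t : ℝ, 0 ≤ t → Tendsto (fun n : ℕ =>
      (nearWeights (T.H (pow Y n)) q (t * √((n + 1 : ℕ) : ℝ)) : ℝ) / b ^ (n + 1)) atTop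
      (𝓝 (normalWindow (t / √(B / b))))) ∧
    A ≤ B ∧ (A = B ↔ ∀ m, (T.H Y).MWPure q m) ∧
    ((∀ m, RationalPoly (charP (T.H Y) m)) → B ≤ h ∧ ∀ t : ℝ, 0 ≤ t →
      (∃ c : ℝ, c ≤ Real.exp (-(t ^ 2 * b / (2 * h))) ∧ Tendsto (fun n : ℕ =>
        (numBlocks (T.H (pow Y n)).N ⌊t * √((n + 1 : ℕ) : ℝ)⌋₊ : ℝ) /
          (numBlocks (T.H (pow Y n)).N 0 : ℝ)) atTop (𝓝 c)) ∧
      normalWindow (t / √(h / b)) ≤ normalWindow (t / √(B / b))) := by
  have hT' := hT.isLocal
  obtain ⟨S, H⟩ := exists_powSeq hq hT' Y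
  obtain ⟨hle, hiff⟩ := Coh.moment_tot hq (hT.isP.coh Y)
  have hApos : 0 < (T.H Y).totRankMoment := Coh.totRank_pos hq (hT.isP.coh Y) hN
  have hA0 : 0 < A := by rw [hA]; exact_mod_cast hApos
  have hAB : A ≤ B := by rw [hA, hB]; exact_mod_cast hle
  have hpos : 0 < finrank Ω (T.H Y).V := by
    by_contra hcon
    have h0 : finrank Ω (T.H Y).V = 0 := by omega
    have := (hT.isP.coh Y).finite
    apply hN
    have hs : Subsingleton (T.H Y).V := finrank_zero_iff.1 h0
    ext x
    exact Subsingleton.elim _ _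
  have hb0 : 0 < b := by rw [hb]; exact_mod_cast hpos
  have h1 : ∀ t : ℝ, 0 ≤ t → Tendsto (fun n : ℕ => √((n + 1 : ℕ) : ℝ) *
      ((numBlocks (T.H (pow Y n)).N ⌊t * √((n + 1 : ℕ) : ℝ)⌋₊ : ℝ) / b ^ (n + 1))) atTop
      (𝓝 (√(2 * b / (Real.pi * A)) * Real.exp (-(t ^ 2 * b / (2 * A))))) := by
    intro t ht
    have h2 := H.rayleigh hN ht
    subst hb hA
    rw [Coh.totRank_eq S]
    exact h2
  refine ⟨h1, fun t ht => ?_, hAB, ?_, fun hrat => ?_⟩
  · have h2 := H.weights (exists_wt_ne hq (hT.isP.coh Y) S hN) ht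
    subst hb hB
    rw [Coh.totWeight_eq hq (hT.isP.coh Y) S]
    exact h2
  · subst hA hB
    rw [← hiff]
    exact_mod_cast Iff.rfl
  · have hBh : B ≤ h := by rw [hB, hh]; exact_mod_cast weight_le_hodge hq hT Y hrat
    have hB0 : 0 < B := by linarith
    refine ⟨hBh, fun t ht => ⟨⟨Real.exp (-(t ^ 2 * b / (2 * A))), ?_, ?_⟩, ?_⟩⟩
    · apply Real.exp_le_exp.2
      apply neg_le_neg
      have : A ≤ h := hAB.trans hBh
      gcongr
    · have hlim0 : √(2 * b / (Real.pi * A)) * Real.exp (-(0 ^ 2 * b / (2 * A))) ≠ 0 := by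
        have h3 : 0 < √(2 * b / (Real.pi * A)) := by
          apply Real.sqrt_pos.2
          have := Real.pi_pos
          positivity
        positivity
      have h2 := (h1 t ht).div (h1 0 le_rfl) hlim0
      have h3 : √(2 * b / (Real.pi * A)) * Real.exp (-(t ^ 2 * b / (2 * A))) /
          (√(2 * b / (Real.pi * A)) * Real.exp (-(0 ^ 2 * b / (2 * A)))) =
          Real.exp (-(t ^ 2 * b / (2 * A))) := by
        have h4 : √(2 * b / (Real.pi * A)) ≠ 0 := by
          apply ne_of_gt
          apply Real.sqrt_pos.2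
          have := Real.pi_pos
          positivity
        have h5 : Real.exp (-((0 : ℝ) ^ 2 * b / (2 * A))) = 1 := by norm_num
        rw [h5, mul_one, mul_div_cancel_left₀ _ h4]
      rw [h3] at h2
      refine h2.congr fun n => ?_
      simp only [Pi.div_apply]
      have h6 : √((n + 1 : ℕ) : ℝ) ≠ 0 := (Real.sqrt_pos.2 (by positivity)).ne'
      have h7 : b ^ (n + 1) ≠ 0 := by positivity
      rw [mul_div_mul_left _ _ h6, div_div_div_cancel_right₀ h7, zero_mul, Nat.floor_zero]
    · have h3 : 0 < √(B / b) := Real.sqrt_pos.2 (div_pos hB0 hb0)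
      have h4 : √(B / b) ≤ √(h / b) := Real.sqrt_le_sqrt (by gcongr)
      have h5 : t / √(h / b) ≤ t / √(B / b) := by gcongr
      unfold normalWindow
      exact MeasureTheory.measureReal_mono (Set.Icc_subset_Icc (neg_le_neg h5) h5)

end Pool.Agent.Results.MP_d037d4_ag.BlocksAndHodge
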