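import Pool.Agent.Q60.PL.Tot
import Pool.Agent.Y163.MX.Wrong

/-!
# MP_d037d4_ag: a lower bound for the crystalline part by the Hodge numbers

Let `X` be a smooth proper variety over a finite extension `K` of `ℚ_p`, `b` the dimension of
`H^m(X)`, `p` the dimension of its (potentially) crystalline part, the kernel of `N` on `H^m_HK(X)`, and
`h = ∑ (a - c)² h^(a, c)`, `a + c = m`. If the cohomology in the other degrees is good (for example
generated by algebraic cycles), then `b³ ≤ p² (3 h + b)`, i.e. `p ≥ b^(3/2) / √(3 h + b)`. If equality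
holds and `b ≠ 0`, then the `p`-adic weight-monodromy conjecture holds for `H^m(X)`.
-/

set_option autoImplicit false

open Module

universe u v w

namespace Pool.Agent.Results.MP_d037d4_ag.CrystallineBound

open Pool.Agent.H914 Pool.Agent.Y143 Pool.Agent.Y163.MW Pool.Agent.Y163.MX Pool.Agent.Q60.PL

section lin

variable {Ω : Type w} [Field Ω] {V : Type v} [AddCommGroup V] [Module Ω V] [Module.Finite Ω V]

lemma rank_step (S : Submodule Ω V) (N : Module.End Ω V) (hS : ∀ x ∈ S, N x ∈ S) (k : ℕ) :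
    finrank Ω (S.map (N ^ k)) ≤ finrank Ω (S.map (N ^ (k + 1))) +
      finrank Ω (LinearMap.ker N ⊓ S : Submodule Ω V) := by
  have hle : S.map (N ^ k) ≤ S := by
    rintro _ ⟨x, hx, rfl⟩
    induction k with
    | zero => simpa using hx
    | succ k ih =>
      rw [pow_succ', Module.End.mul_apply]
      exact hS _ ih
  have hmap : S.map (N ^ (k + 1)) = (S.map (N ^ k)).map N := by
    rw [pow_succ', ← Submodule.map_comp]
    rfl
  set U := S.map (N ^ k) with hU
  have h1 := LinearMap.finrank_range_add_finrank_ker (N.domRestrict U)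
  have h2 : LinearMap.range (N.domRestrict U) = U.map N := by
    rw [LinearMap.range_domRestrict]
  have h3 : finrank Ω (LinearMap.ker (N.domRestrict U)) ≤
      finrank Ω (LinearMap.ker N ⊓ S : Submodule Ω V) := by
    have h4 : (LinearMap.ker (N.domRestrict U)).map U.subtype ≤ LinearMap.ker N ⊓ S := by
      rintro _ ⟨x, hx, rfl⟩
      refine ⟨?_, hle x.2⟩
      have : N.domRestrict U x = 0 := hx
      simpa using this
    calc finrank Ω (LinearMap.ker (N.domRestrict U))
        = finrank Ω ((LinearMap.ker (N.domRestrict U)).map U.subtype) :=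
          (LinearEquiv.finrank_eq (Submodule.equivMapOfInjective _ U.injective_subtype _))
      _ ≤ _ := Submodule.finrank_mono h4
  rw [h2] at h1
  rw [hmap]
  omega

lemma rank_lower (S : Submodule Ω V) (N : Module.End Ω V) (hS : ∀ x ∈ S, N x ∈ S) (k : ℕ) :
    finrank Ω S ≤ finrank Ω (S.map (N ^ k)) +
      k * finrank Ω (LinearMap.ker N ⊓ S : Submodule Ω V) := by
  induction k with
  | zero =>
    have h0 : S.map (N ^ 0) = S := by
      rw [pow_zero]
      exact Submodule.map_id S
    rw [h0]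
    omega
  | succ k ih =>
    have := rank_step S N hS k
    rw [add_mul, one_mul]
    omega

lemma sum_k (L : ℕ) (b p : ℤ) : 3 * ∑ k ∈ Finset.range (L + 1), 2 * (k : ℤ) * (b - k * p) =
    L * (L + 1) * (3 * b - p * (2 * L + 1)) := by
  induction L with
  | zero => simp
  | succ L ih =>
    rw [Finset.sum_range_succ, mul_add, ih]
    push_cast
    ring

/-- `b³ ≤ p² (3 A + b)`. -/
theorem cube_le (S : Submodule Ω V) (N : Module.End Ω V) (hS : ∀ x ∈ S, N x ∈ S)
    (hN : ∃ k, N ^ k = 0) :
    (finrank Ω S : ℤ) ^ 3 ≤ (finrank Ω (LinearMap.ker N ⊓ S : Submodule Ω V) : ℤ) ^ 2 *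
      (3 * rankSum S N + finrank Ω S) := by
  obtain ⟨k₀, hk₀⟩ := hN
  set b := finrank Ω S with hb
  set p := finrank Ω (LinearMap.ker N ⊓ S : Submodule Ω V) with hp
  have hz : ∀ k, k₀ ≤ k → finrank Ω (S.map (N ^ k)) = 0 := by
    intro k hk
    have : N ^ k = 0 := by
      rw [← Nat.sub_add_cancel hk, pow_add, hk₀, mul_zero]
    rw [this, Submodule.map_zero, finrank_bot]
  have hA : ∀ L : ℕ, ∑ k ∈ Finset.range (L + 1), 2 * (k : ℤ) * ((b : ℤ) - k * p) ≤
      rankSum S N := by
    intro L
    have h1 : rankSum S N = ∑ k ∈ Finset.range (max k₀ (L + 1)),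
        2 * (k : ℤ) * finrank Ω (S.map (N ^ k)) := by
      apply finsum_eq_sum_of_support_subset
      intro k hk
      rw [Finset.coe_range, Set.mem_Iio]
      by_contra hcon
      apply hk
      show 2 * (k : ℤ) * (finrank Ω (S.map (N ^ k)) : ℤ) = 0
      rw [hz k (by omega)]
      simp
    rw [h1]
    calc ∑ k ∈ Finset.range (L + 1), 2 * (k : ℤ) * ((b : ℤ) - k * p)
        ≤ ∑ k ∈ Finset.range (L + 1), 2 * (k : ℤ) * finrank Ω (S.map (N ^ k)) := by
          refine Finset.sum_le_sum fun k _ => ?_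
          have h2 := rank_lower S N hS k
          have h3 : (b : ℤ) - k * p ≤ finrank Ω (S.map (N ^ k)) := by
            have : (b : ℤ) ≤ (finrank Ω (S.map (N ^ k)) : ℤ) + k * p := by exact_mod_cast h2
            linarith
          exact mul_le_mul_of_nonneg_left h3 (by positivity)
      _ ≤ _ := Finset.sum_le_sum_of_subset_of_nonneg
          (Finset.range_subset_range.2 (le_max_right _ _)) fun k _ _ => by positivity
  have h1 := hA (b / p)
  have h2 := sum_k (b / p) b p
  rcases Nat.eq_zero_or_pos p with hp0 | hp0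
  · -- the kernel is zero
    have h3 := rank_lower S N hS k₀
    rw [hz k₀ le_rfl, ← hp, hp0] at h3
    have : b = 0 := by omega
    rw [this, hp0]
    simp
  · have hdiv := Nat.div_add_mod b p
    have hmod := Nat.mod_lt b hp0
    set L := b / p
    set s := b % p
    have hb' : (b : ℤ) = p * L + s := by exact_mod_cast hdiv.symm
    have h3 : (L : ℤ) * (L + 1) * (3 * b - p * (2 * L + 1)) ≤ 3 * rankSum S N := by
      rw [← h2]
      linarith
    have hs : (s : ℤ) < p := by exact_mod_cast hmod
    have h4 : (p : ℤ) ^ 2 * ((L : ℤ) * (L + 1) * (3 * b - p * (2 * L + 1)) + b) ≤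
        (p : ℤ) ^ 2 * (3 * rankSum S N + b) :=
      mul_le_mul_of_nonneg_left (by linarith) (by positivity)
    refine le_trans ?_ h4
    have h5 : 0 ≤ 3 * (L : ℤ) * p * s * (p - s) + s * (p - s) * (p + s) := by
      have : 0 ≤ (p : ℤ) - s := by linarith
      positivity
    rw [hb']
    nlinarith [h5]

end lin

/-- **The crystalline part and the Hodge numbers.** -/
theorem result {K : Type u} [Field K] {Ω : Type w} [Field Ω] [CharZero Ω] [IsAlgClosed Ω]
    {T : PTheory.{u, v, w} K Ω} {q : ℕ} (hq : 1 < q) (hT : T.IsPLocal q) (X : SmVar.{u} K) (m : ℕ)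
    (hm : m ≤ 2 * X.dim) (hX : GoodOutside (T.H X) q (2 * X.dim) m) (b p h : ℤ)
    (hb : b = finrank Ω ((T.H X).gr m))
    (hp : p = finrank Ω (LinearMap.ker (T.H X).N ⊓ (T.H X).gr m : Submodule Ω (T.H X).V))
    (hh : h = hodgeMoment m (T.hodge X m)) :
    b ^ 3 ≤ p ^ 2 * (3 * h + b) ∧
    (b ≠ 0 → b ^ 3 = p ^ 2 * (3 * h + b) → (T.H X).MWPure q m ∧
      ∀ α, mult (T.H X) m α ≠ 0 →
        ∃ a : ℕ, T.hodge X m a ≠ 0 ∧ IsWeilNumber q (2 * (a : ℤ)) α ∧ T.val α = a) := by
  have hR := hT.coh X
  have := hR.finite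
  have hrat := rational_of_good hR hm (hT.rational X) hX
  have hs := sandwich hq hR hrat hT.val (hT.polygons X m)
  have hAh : (T.H X).rankMoment m ≤ h := by
    rw [hh]
    exact_mod_cast (Int.cast_le.2 hs.1).trans (hs.2.1.trans hs.2.2)
  have hcube := cube_le ((T.H X).gr m) (T.H X).N (fun x hx => hR.N_gr m x hx) (exists_nil hq hR)
  change _ ≤ _ * (3 * (T.H X).rankMoment m + _) at hcube
  rw [← hb, ← hp] at hcube
  have h2 : p ^ 2 * (3 * (T.H X).rankMoment m + b) ≤ p ^ 2 * (3 * h + b) :=
    mul_le_mul_of_nonneg_left (by linarith) (sq_nonneg _)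
  refine ⟨hcube.trans h2, fun hb0 he => ?_⟩
  have hp0 : p ≠ 0 := by
    rintro rfl
    apply hb0
    have : b ^ 3 = 0 := by rw [he]; ring
    exact pow_eq_zero_iff (three_ne_zero) |>.1 this
  have hpp : 0 < p ^ 2 := by positivity
  have h3 : h ≤ (T.H X).rankMoment m := by
    by_contra hcon
    push Not at hcon
    have h4 : p ^ 2 * (3 * (T.H X).rankMoment m + b) < p ^ 2 * (3 * h + b) :=
      mul_lt_mul_of_pos_left (by linarith) hpp
    linarith
  rw [hh] at h3
  obtain ⟨h5, h6, -⟩ := maximal hq hR hrat hT.val (hT.polygons X m) h3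
  exact ⟨h5, h6⟩

end Pool.Agent.Results.MP_d037d4_ag.CrystallineBound
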