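import Pool.Agent.Q148.LI.WM
import Pool.Agent.Q148.LI.Proper

/-!
# The `p`-adic weight-monodromy conjecture for Hyodo-Kato cohomology and the cubics `T(x, y, z) = 1`

Let `K` be a finite extension of `ℚ_p`, `k = K` in the notations of this file (the residue field has
`q = p ^ f` elements), `E` an algebraic closure of `K_0`. Let `M` be the category of motives over `K` for
motivated cycles (André), a semisimple abelian category, `N ↦ N(a)` the Tate twists. For a motive `N` let
`ω m N` be the part of weight `m` of its Hyodo-Kato realization, with coefficients extended to `E`, with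
the monodromy operator `N` and the linear operator `φ ^ f`. (If semistable reduction is attained only
after a finite extension of `K` with residue degree `r`, one takes `φ ^ (r f)`, and `f` is replaced by
`r f`; this does not affect the condition.) For a separated `K`-scheme `X` of finite type let `D.H i X` be
the object of `M` given by the graded object of the weight filtration of the cohomology with compact
supports `H^i_c(X)`; for smooth proper `X` it is the motive `h^i(X)`, with
`ω i (h^i(X)) = H^i_{HK}(X) ⊗ E`, and it is of weight `i` (`PureWeights`).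

`Claim X` is the statement of question Q1 for `X` (all `i`, `j`). `PureAt f ω (D.H i X)` says that for all
`m` and `j` the eigenvalues of `φ ^ f` on `gr^M_j` of the part of weight `m` of the cohomology with
compact supports, `ω m (D.H i X)`, are algebraic numbers all of whose complex conjugates have the absolute
value `q ^ ((m + j) / 2)`.

**Theorem.** (1) The following are equivalent: question Q1 has a positive answer for all smooth proper
schemes over `K`; for all smooth projective schemes over `K`; the cohomology with compact supports of the
smooth affine cubic hypersurfaces `T(x, y, z) = 1` of all trilinear forms `T` over `K` is pure in this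
sense.

(2) For all `n`, Q1 has a positive answer for all smooth projective `Y` of dimension at most `n` over `K`
if and only if the cohomology with compact supports of `T(x, y, z) = 1` is pure for all trilinear forms
`T` over `K` such that one of the three blocks of variables has at most `n + 2` variables (the other two
blocks are arbitrary).

(3) Unconditionally, the cohomology with compact supports of `T(x, y, z) = 1` is pure if one of the three
blocks of variables has at most four variables.
-/

set_option autoImplicit false

open CategoryTheory CategoryTheory.Limits AlgebraicGeometry Pool.Agent.Y116.UV Pool.Agent.Z125.UN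
  Pool.Agent.Q193.LT Pool.Agent.Q148.LI

universe w v u

namespace Pool.Agent.Results.MP_d037d4_ag.CubicHypersurfaces

variable {k : Type} [Field k] {M : Type u} [Category.{v} M] [Abelian M] {E : Type} [Field E]
  [CharZero E]

/-- The degree `f` of the operator `φ ^ f`. -/
def deg (f : ℕ) : Unit → ℤ := fun _ => f

/-- The motive `h^i(X)` of a smooth proper scheme `X` has the weight `i`. -/
def PureWeights (D : CompactData k M) (ω : ℤ → (M ⥤ ModuleCat.{w} (OpAlg E Unit))) : Prop :=
  ∀ X : Sch k, SmoothProper X → ∀ i m : ℤ, m ≠ i → Subsingleton ((ω m).obj (D.H i X))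

/-- The statement of Q1 for `X`. -/
def Claim (D : CompactData k M) (p : ℕ) (f : ℕ) (ω : ℤ → (M ⥤ ModuleCat.{w} (OpAlg E Unit)))
    (X : Sch k) : Prop :=
  ∀ i : ℤ, Pure E p (deg f) i ((ω i).obj (D.H i X))

/-- The statement of Q1 for the smooth projective schemes of dimension at most `n`. -/
def Proj (D : CompactData k M) (p : ℕ) (f : ℕ) (ω : ℤ → (M ⥤ ModuleCat.{w} (OpAlg E Unit)))
    (n : ℕ) : Prop :=
  ∀ Y : Sch k, SmoothProj Y → topologicalKrullDim Y.left ≤ n → Claim D p f ω Y

/-- Purity for the hypersurface `T = 1`. -/
def PureHyp (D : CompactData k M) (p : ℕ) (f : ℕ) (ω : ℤ → (M ⥤ ModuleCat.{w} (OpAlg E Unit)))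
    {a b c : ℕ} (T : Fin a → Fin b → Fin c → k) : Prop :=
  ∀ i : ℤ, PureAt p (deg f) ω (D.H i (hypS T))

/-- Purity for all hypersurfaces `T = 1` with a block of at most `m` variables. -/
def Forms (D : CompactData k M) (p : ℕ) (f : ℕ) (ω : ℤ → (M ⥤ ModuleCat.{w} (OpAlg E Unit)))
    (m : ℕ) : Prop :=
  ∀ (a b c : ℕ) (T : Fin a → Fin b → Fin c → k), (a ≤ m ∨ b ≤ m ∨ c ≤ m) → PureHyp D p f ω T

variable {D : CompactData k M} {p : ℕ} {f : ℕ} {ω : ℤ → (M ⥤ ModuleCat.{w} (OpAlg E Unit))}

lemma claim_iff (hw : PureWeights D ω) {X : Sch k} (hX : SmoothProper X) :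
    Claim D p f ω X ↔ ∀ i, PureAt p (deg f) ω (D.H i X) := by
  constructor
  · intro h i m
    by_cases hm : m = i
    · rw [hm]
      exact h i
    · have h1 := hw X hX i m hm
      intro j g x c _ h2 _
      exact absurd (by rw [Subsingleton.elim x 0]; exact zero_mem _) h2
  · intro h i
    exact h i i

/-- **Purity and cubic hypersurfaces.** See the explanations above. The known cases that are used are
points and smooth projective varieties of dimension at most two. -/
theorem result [CharZero k] [Fact p.Prime] (h : IsRealized D p (deg f) ω) (hw : PureWeights D ω)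
    (point : ∀ i, PureAt p (deg f) ω (D.H i (aff k k))) (surfaces : Proj D p f ω 2) :
    List.TFAE [
      ∀ X : Sch k, SmoothProper X → Claim D p f ω X,
      ∀ Y : Sch k, SmoothProj Y → Claim D p f ω Y,
      ∀ (a b c : ℕ) (T : Fin a → Fin b → Fin c → k), PureHyp D p f ω T] ∧
    (∀ n : ℕ, Proj D p f ω n ↔ Forms D p f ω (n + 2)) ∧ Forms D p f ω 4 := by
  have hS := h.pure
  have hn : ∀ n : ℕ, Proj D p f ω n ↔ Forms D p f ω (n + 2) := by
    intro n
    refine Iff.trans ?_ (proj_iff h.compact h.generated hS point n)
    exact ⟨fun h1 Y hY hd => (claim_iff hw (SmoothProj.proper' hY)).mp (h1 Y hY hd),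
      fun h1 Y hY hd => (claim_iff hw (SmoothProj.proper' hY)).mpr (h1 Y hY hd)⟩
  refine ⟨?_, hn, (hn 2).mp surfaces⟩
  tfae_have 1 → 2 := fun h1 Y hY => h1 Y (SmoothProj.proper' hY)
  tfae_have 2 → 3 := fun h1 => (proj_all_iff h.compact h.generated hS point).mp
    fun Y hY => (claim_iff hw (SmoothProj.proper' hY)).mp (h1 Y hY)
  tfae_have 3 → 1 := fun h1 X hX => (claim_iff hw hX).mpr
    ((all_iff (bnd_compact h.compact hS point)).mpr h1 X (SmoothProper.ft hX))
  tfae_finish

end Pool.Agent.Results.MP_d037d4_ag.CubicHypersurfaces
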