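import Pool.Agent.Q60.PL.Tot
import Pool.Agent.Y954.MW.B1

/-!
# MP_d037d4_ag: the potentially crystalline part of the cohomology of `Y × Y`

Let `Y` be a smooth proper variety over a `p`-adic field `K` whose residue field has `q` elements. The
kernel of `N` on the Hyodo-Kato cohomology is the (potentially) crystalline part of the cohomology.

* For all `Y` the dimension of the crystalline part of `H^*(Y)` is at least the number of the Frobenius
  eigenvalues of weight `m` or `m + 1` on the `H^m(Y)`.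
* The `p`-adic weight-monodromy conjecture for all `H^m_HK(Y)` is equivalent to equality for the
  variety `Y × Y`.
* Comparison with `ℓ`-adic cohomology: let `ℓ`-adic weight-monodromy be true for `Y`, and let the
  weights on the cohomology of `Y × Y` be the same for both cohomologies. Then the crystalline part of
  `H^*(Y × Y)` is at least as large as the part fixed by (a finite index subgroup of) the inertia group
  in the `ℓ`-adic cohomology, and the dimensions are equal if and only if the `p`-adic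
  weight-monodromy conjecture is true for `Y`.
-/

set_option autoImplicit false

open Module

universe u v w v' w'

namespace Pool.Agent.Results.MP_d037d4_ag.SquareCriterion

open Pool.Agent.H914 Pool.Agent.Y143 Pool.Agent.Y163.MW Pool.Agent.Y163.MX Pool.Agent.Q60.PL

/-- **The crystalline part of `Y × Y` decides.** -/
theorem result {K : Type u} [Field K] {Ω : Type w} [Field Ω] [CharZero Ω] [IsAlgClosed Ω]
    {T : PTheory.{u, v, w} K Ω} {q : ℕ} (hq : 1 < q) (hT : IsPadic T q) (Y : SmVar.{u} K) :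
    (T.H (Y.prod Y)).pred q ≤ (T.H (Y.prod Y)).inv ∧
    ((T.H (Y.prod Y)).inv = (T.H (Y.prod Y)).pred q ↔ ∀ m, (T.H Y).MWPure q m) ∧
    ∀ (Ω' : Type w') [Field Ω'] [CharZero Ω'] [IsAlgClosed Ω'] (T' : Theory.{u, v', w'} K Ω'),
      T'.IsLocal q → (∀ m, (T'.H Y).MWPure q m) →
      (T.H (Y.prod Y)).pred q = (T'.H (Y.prod Y)).pred q →
      (T'.H (Y.prod Y)).inv ≤ (T.H (Y.prod Y)).inv ∧
      ((T.H (Y.prod Y)).inv = (T'.H (Y.prod Y)).inv ↔ ∀ m, (T.H Y).MWPure q m) := by
  have h1 : (T.H (Y.prod Y)).pred q ≤ (T.H (Y.prod Y)).inv :=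
    Coh.pred_le_inv (Pool.Agent.Y954.MW.stB1 Pool.Agent.Y141.MW.stL) hq (hT.isLocal.coh _)
  have h2 : (T.H (Y.prod Y)).inv = (T.H (Y.prod Y)).pred q ↔ ∀ m, (T.H Y).MWPure q m :=
    square_iff (Pool.Agent.Y954.MW.stB1 Pool.Agent.Y141.MW.stL) hT.isLocal hq Y
  refine ⟨h1, h2, fun Ω' _ _ _ T' hT' hmw he => ?_⟩
  have h3 : (T'.H (Y.prod Y)).inv = (T'.H (Y.prod Y)).pred q ↔ ∀ m, (T'.H Y).MWPure q m :=
    square_iff (Pool.Agent.Y954.MW.stB1 Pool.Agent.Y141.MW.stL) hT' hq Y
  have h4 := h3.2 hmw
  rw [h4, ← he]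
  exact ⟨h1, h2⟩

end Pool.Agent.Results.MP_d037d4_ag.SquareCriterion
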